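import Mathlib

set_option autoImplicit false

noncomputable section

open Set Topology

namespace Pool.Agent.Results.MP_c05aef_gt.ManyComponents

/-- A finite graph; loops and multiple edges are allowed. -/
structure Graph where
  /-- the number of vertices -/
  nV : ℕ
  /-- the number of edges -/
  nE : ℕ
  /-- the start of an edge -/
  src : Fin nE → Fin nV
  /-- the end of an edge -/
  tgt : Fin nE → Fin nV

namespace Graph

variable (G : Graph)

/-- The gluing relation: the two ends of the interval of an edge are attached to its end vertices. -/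
inductive Glue : Fin G.nV ⊕ (Fin G.nE × unitInterval) → Fin G.nV ⊕ (Fin G.nE × unitInterval) → Prop
  | src (e : Fin G.nE) : Glue (Sum.inr (e, 0)) (Sum.inl (G.src e))
  | tgt (e : Fin G.nE) : Glue (Sum.inr (e, 1)) (Sum.inl (G.tgt e))

/-- The 1-dimensional CW complex of the graph. -/
def Space : Type := Quot G.Glue

instance : TopologicalSpace G.Space := inferInstanceAs (TopologicalSpace (Quot _))

/-- a vertex, as a point of the CW complex -/
def vx (v : Fin G.nV) : G.Space := Quot.mk _ (Sum.inl v)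

/-- the point with parameter `t` of the edge `e` -/
def pt (e : Fin G.nE) (t : unitInterval) : G.Space := Quot.mk _ (Sum.inr (e, t))

/-- the closed edge `e`, a subset of the CW complex (a circle if `e` is a loop) -/
def closedEdge (e : Fin G.nE) : Set G.Space := range (G.pt e)

/-- `φ` is constant on the edge `e` -/
def IsConst (φ : C(G.Space, ℂ)) (e : Fin G.nE) : Prop := ∀ s t, φ (G.pt e s) = φ (G.pt e t)

/-- The edges of the set `E` contain a cycle: distinct vertices `v 0, …, v k` and distinct edges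
`e 0, …, e k` of `E` such that `e i` joins `v i` to `v (i + 1)` (indices modulo `k + 1`). -/
def HasCycle (E : Set (Fin G.nE)) : Prop :=
  ∃ (k : ℕ) (v : Fin (k + 1) → Fin G.nV) (e : Fin (k + 1) → Fin G.nE),
    Function.Injective v ∧ Function.Injective e ∧ (∀ i, e i ∈ E) ∧
    ∀ i, (G.src (e i) = v i ∧ G.tgt (e i) = v (i + 1)) ∨
      (G.src (e i) = v (i + 1) ∧ G.tgt (e i) = v i)

/-- Degenerate graph embeddings of `G` in the plane `ℝ² = ℂ`. -/
structure IsDegEmb (φ : C(G.Space, ℂ)) : Prop where
  /-- on each (closed) edge `φ` is either constant or an embedding -/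
  edge : ∀ e, G.IsConst φ e ∨ IsEmbedding (fun x : G.closedEdge e => φ x)
  /-- `φ v = φ w` if and only if `v` and `w` are related by the equivalence relation generated by
  the endpoints of the constant edges -/
  vertex : ∀ v w, φ (G.vx v) = φ (G.vx w) ↔
    Relation.EqvGen (fun a b => ∃ e, G.IsConst φ e ∧ a = G.src e ∧ b = G.tgt e) v w
  /-- the interior of a nonconstant edge does not meet the image of the vertices -/
  edge_vertex : ∀ e, ¬ G.IsConst φ e → ∀ t : unitInterval, 0 < t → t < 1 → ∀ v,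
    φ (G.pt e t) ≠ φ (G.vx v)
  /-- the interiors of distinct nonconstant edges have disjoint images -/
  edge_edge : ∀ e f, e ≠ f → ¬ G.IsConst φ e → ¬ G.IsConst φ f →
    ∀ s t : unitInterval, 0 < s → s < 1 → 0 < t → t < 1 → φ (G.pt e s) ≠ φ (G.pt f t)
  /-- no cycle has all of its edges constant -/
  no_cycle : ¬ G.HasCycle {e | G.IsConst φ e}

end Graph

/-- the disjoint union of the spaces `DegEmb(G, ℝ²)` over all finite graphs, each of them with the
compact-open topology -/
def PreNets : Type := Σ G : Graph, {φ : C(G.Space, ℂ) // G.IsDegEmb φ}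

instance : TopologicalSpace PreNets :=
  inferInstanceAs (TopologicalSpace (Σ G : Graph, {φ : C(G.Space, ℂ) // G.IsDegEmb φ}))

/-- the image in the plane -/
def PreNets.image (x : PreNets) : Set ℂ := range x.2.1

/-- two degenerate graph embeddings are identified when their images coincide -/
instance netSetoid : Setoid PreNets where
  r x y := x.image = y.image
  iseqv := ⟨fun _ => rfl, fun h => h.symm, fun h h' => h.trans h'⟩

/-- the space `𝒩(ℝ²)`, with the quotient topology -/
def Nets : Type := Quotient netSetoid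

instance : TopologicalSpace Nets := inferInstanceAs (TopologicalSpace (Quotient netSetoid))

/-- the image in the plane of a class -/
def Nets.image : Nets → Set ℂ := Quotient.lift PreNets.image (fun _ _ h => h)

/-- the bounded faces: the bounded connected components of the complement -/
def boundedFaces (S : Set ℂ) : Set (Set ℂ) :=
  {F | (∃ p ∈ Sᶜ, F = connectedComponentIn Sᶜ p) ∧ Bornology.IsBounded F}

/-- the space `𝒩_n(ℝ²)` of the classes with exactly `n` bounded faces -/
def NetsWith (n : ℕ) : Type := {x : Nets // (boundedFaces x.image).encard = n}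

instance (n : ℕ) : TopologicalSpace (NetsWith n) :=
  inferInstanceAs (TopologicalSpace {x : Nets // (boundedFaces x.image).encard = n})

/-- the ordered configuration space of `n` points of the plane -/
def OConf (n : ℕ) : Type := {f : Fin n → ℂ // Function.Injective f}

instance (n : ℕ) : TopologicalSpace (OConf n) :=
  inferInstanceAs (TopologicalSpace {f : Fin n → ℂ // Function.Injective f})

/-- the action of the symmetric group -/
instance confSetoid (n : ℕ) : Setoid (OConf n) where
  r f g := ∃ σ : Equiv.Perm (Fin n), g.1 = f.1 ∘ σ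
  iseqv := by
    refine ⟨fun f => ⟨1, rfl⟩, ?_, ?_⟩
    · rintro f g ⟨σ, h⟩
      exact ⟨σ⁻¹, by rw [h]; funext i; simp⟩
    · rintro f g k ⟨σ, h⟩ ⟨τ, h'⟩
      exact ⟨σ * τ, by rw [h', h]; funext i; simp⟩

/-- the unordered configuration space of `n` points of the plane -/
def UConf (n : ℕ) : Type := Quotient (confSetoid n)

instance (n : ℕ) : TopologicalSpace (UConf n) :=
  inferInstanceAs (TopologicalSpace (Quotient (confSetoid n)))

/-! ### Connectedness of the image of a graph -/

namespace Graph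

variable {G : Graph}

theorem pt_zero (e : Fin G.nE) : G.pt e 0 = G.vx (G.src e) := Quot.sound (Glue.src e)

theorem pt_one (e : Fin G.nE) : G.pt e 1 = G.vx (G.tgt e) := Quot.sound (Glue.tgt e)

theorem space_ind {p : G.Space → Prop} (h1 : ∀ v, p (G.vx v)) (h2 : ∀ e t, p (G.pt e t)) (x) :
    p x := by
  induction x using Quot.ind with
  | mk a =>
    rcases a with v | ⟨e, t⟩
    · exact h1 v
    · exact h2 e t

theorem continuous_pt (e : Fin G.nE) : Continuous (G.pt e) :=
  continuous_quot_mk.comp (continuous_inr.comp (by fun_prop))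

instance : CompactSpace G.Space := inferInstanceAs (CompactSpace (Quot _))

/-- the set of combinatorial components -/
def Comp (G : Graph) : Type := Quot (fun a b : Fin G.nV => ∃ e, a = G.src e ∧ b = G.tgt e)

/-- the component of a point -/
def comp (G : Graph) : G.Space → G.Comp :=
  Quot.lift (Sum.elim (fun v => Quot.mk _ v) (fun p => Quot.mk _ (G.src p.1))) (by
    rintro _ _ (e | e)
    · rfl
    · exact Quot.sound ⟨e, rfl, rfl⟩)

theorem comp_vx (v : Fin G.nV) : G.comp (G.vx v) = Quot.mk _ v := rfl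

theorem comp_pt (e : Fin G.nE) (t) : G.comp (G.pt e t) = Quot.mk _ (G.src e) := rfl

theorem isClopen_comp (c : G.Comp) : IsClopen (G.comp ⁻¹' {c}) := by
  have key : ∀ A : Set G.Comp, IsOpen (G.comp ⁻¹' A) := by
    intro A
    change IsOpen ((Quot.mk G.Glue) ⁻¹' (G.comp ⁻¹' A))
    rw [isOpen_sum_iff]
    constructor
    · exact isOpen_discrete _
    · have : (Sum.inr ⁻¹' (Quot.mk G.Glue ⁻¹' (G.comp ⁻¹' A)) : Set (Fin G.nE × unitInterval)) =
          {e | (Quot.mk _ (G.src e) : G.Comp) ∈ A} ×ˢ univ := by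
        ext ⟨e, t⟩
        simp only [mem_preimage, mem_prod, mem_ofPred_eq, mem_univ, and_true]
        rfl
      rw [this]
      exact (isOpen_discrete _).prod isOpen_univ
  refine ⟨⟨?_⟩, key _⟩
  rw [← preimage_compl]
  exact key _

theorem comp_eq_of_eq {φ : C(G.Space, ℂ)} (h : G.IsDegEmb φ) {x y : G.Space} (hxy : φ x = φ y) :
    G.comp x = G.comp y := by
  -- every point has the same image and the same component as a vertex or an interior point
  have red : ∀ x : G.Space, ∃ x', φ x' = φ x ∧ G.comp x' = G.comp x ∧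
      ((∃ v, x' = G.vx v) ∨ ∃ e t, ¬ G.IsConst φ e ∧ 0 < t ∧ t < 1 ∧ x' = G.pt e t) := by
    intro x
    refine space_ind (p := fun x => ∃ x', φ x' = φ x ∧ G.comp x' = G.comp x ∧
      ((∃ v, x' = G.vx v) ∨ ∃ e t, ¬ G.IsConst φ e ∧ 0 < t ∧ t < 1 ∧ x' = G.pt e t)) ?_ ?_ x
    · intro v
      exact ⟨G.vx v, rfl, rfl, Or.inl ⟨v, rfl⟩⟩
    · intro e t
      by_cases hc : G.IsConst φ e
      · refine ⟨G.vx (G.src e), ?_, rfl, Or.inl ⟨_, rfl⟩⟩
        rw [← pt_zero]
        exact hc 0 t
      · by_cases h0 : t = 0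
        · subst h0
          exact ⟨G.vx (G.src e), by rw [pt_zero], rfl, Or.inl ⟨_, rfl⟩⟩
        · by_cases h1 : t = 1
          · subst h1
            exact ⟨G.vx (G.tgt e), by rw [pt_one], by rw [pt_one], Or.inl ⟨_, rfl⟩⟩
          · exact ⟨G.pt e t, rfl, rfl, Or.inr ⟨e, t, hc, unitInterval.pos_iff_ne_zero.2 h0,
              unitInterval.lt_one_iff_ne_one.2 h1, rfl⟩⟩
  obtain ⟨x', hx1, hx2, hx3⟩ := red x
  obtain ⟨y', hy1, hy2, hy3⟩ := red y
  rw [← hx2, ← hy2]
  have hxy' : φ x' = φ y' := by rw [hx1, hxy, hy1]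
  rcases hx3 with ⟨v, rfl⟩ | ⟨e, s, he, hs0, hs1, rfl⟩ <;>
    rcases hy3 with ⟨w, rfl⟩ | ⟨f, t, hf, ht0, ht1, rfl⟩
  · have h2 := (h.vertex v w).1 hxy'
    rw [comp_vx, comp_vx]
    clear hx1 hx2 hy1 hy2 hxy'
    induction h2 with
    | rel a b hab =>
      obtain ⟨e, -, ha, hb⟩ := hab
      exact Quot.sound ⟨e, ha, hb⟩
    | refl a => rfl
    | symm a b _ ih => exact ih.symm
    | trans a b c _ _ ih1 ih2 => exact ih1.trans ih2
  · exact absurd hxy'.symm (h.edge_vertex f hf t ht0 ht1 v)
  · exact absurd hxy' (h.edge_vertex e he s hs0 hs1 w)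
  · by_cases hef : e = f
    · subst hef
      rfl
    · exact absurd hxy' (h.edge_edge e f hef he hf s t hs0 hs1 ht0 ht1)

theorem isPreconnected_or (G : Graph) :
    (∀ φ : C(G.Space, ℂ), G.IsDegEmb φ → IsPreconnected (range φ)) ∨
    (∀ φ : C(G.Space, ℂ), G.IsDegEmb φ → ¬ IsPreconnected (range φ)) := by
  by_cases hG : ∀ v w : Fin G.nV, (Quot.mk _ v : G.Comp) = Quot.mk _ w
  · left
    intro φ _
    -- the space is preconnected
    have hedge : ∀ e t, G.pt e t ∈ connectedComponent (G.vx (G.src e)) := by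
      intro e t
      rw [← pt_zero]
      have h1 : IsPreconnected (range (G.pt e)) := isPreconnected_range (continuous_pt e)
      exact h1.subset_connectedComponent ⟨0, rfl⟩ ⟨t, rfl⟩
    have hrel : ∀ v w : Fin G.nV, (Quot.mk _ v : G.Comp) = Quot.mk _ w →
        connectedComponent (G.vx v) = connectedComponent (G.vx w) := by
      intro v w hvw
      have := Quot.eqvGen_exact hvw
      clear hvw
      induction this with
      | rel a b hab =>
        obtain ⟨e, ha, hb⟩ := hab
        subst ha hb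
        have h1 := hedge e 1
        rw [pt_one] at h1
        exact connectedComponent_eq h1
      | refl a => rfl
      | symm a b _ ih => exact ih.symm
      | trans a b c _ _ ih1 ih2 => exact ih1.trans ih2
    have hall : ∀ x y : G.Space, connectedComponent x = connectedComponent y := by
      have h1 : ∀ x : G.Space, ∃ v, connectedComponent x = connectedComponent (G.vx v) := by
        intro x
        refine space_ind (p := fun x => ∃ v, connectedComponent x = connectedComponent (G.vx v))
          ?_ ?_ x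
        · exact fun v => ⟨v, rfl⟩
        · exact fun e t => ⟨G.src e, (connectedComponent_eq (hedge e t)).symm⟩
      intro x y
      obtain ⟨v, hv⟩ := h1 x
      obtain ⟨w, hw⟩ := h1 y
      rw [hv, hw]
      exact hrel v w (hG v w)
    have hpre : PreconnectedSpace G.Space := by
      refine ⟨?_⟩
      rcases isEmpty_or_nonempty G.Space with hE | ⟨⟨x⟩⟩
      · rw [univ_eq_empty_iff.2 hE]
        exact isPreconnected_empty
      · have : (univ : Set G.Space) = connectedComponent x := by
          symm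
          rw [eq_univ_iff_forall]
          intro y
          rw [hall x y]
          exact mem_connectedComponent
        rw [this]
        exact isPreconnected_connectedComponent
    exact isPreconnected_range φ.continuous
  · right
    push Not at hG
    obtain ⟨v, w, hvw⟩ := hG
    intro φ hφ hpre
    have hcl : IsClosed (G.comp ⁻¹' {(Quot.mk _ v : G.Comp)}) := (isClopen_comp _).isClosed
    have hcl' : IsClosed (G.comp ⁻¹' {(Quot.mk _ v : G.Comp)})ᶜ :=
      (isClopen_comp _).compl.isClosed
    have h1 : IsClosed (φ '' (G.comp ⁻¹' {(Quot.mk _ v : G.Comp)})) :=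
      (hcl.isCompact.image φ.continuous).isClosed
    have h2 : IsClosed (φ '' (G.comp ⁻¹' {(Quot.mk _ v : G.Comp)})ᶜ) :=
      (hcl'.isCompact.image φ.continuous).isClosed
    obtain ⟨z, -, ⟨x, hx, hxz⟩, ⟨y, hy, hyz⟩⟩ := isPreconnected_closed_iff.1 hpre _ _ h1 h2 (by
      rw [← image_union, union_compl_self, image_univ])
      ⟨φ (G.vx v), mem_range_self _, ⟨_, by rw [mem_preimage, comp_vx]; rfl, rfl⟩⟩
      ⟨φ (G.vx w), mem_range_self _, ⟨_, (fun h => hvw (Eq.symm h) :
        ¬ G.comp (G.vx w) = Quot.mk _ v), rfl⟩⟩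
    have h3 := comp_eq_of_eq hφ (hxz.trans hyz.symm)
    apply hy
    rw [mem_preimage, ← h3]
    exact hx

end Graph

theorem Graph.isOpen_of (G : Graph) (P : Prop → Prop) :
    IsOpen {φ : {φ : C(G.Space, ℂ) // G.IsDegEmb φ} | P (IsPreconnected (range φ.1))} := by
  rcases G.isPreconnected_or with h | h
  · have : {φ : {φ : C(G.Space, ℂ) // G.IsDegEmb φ} | P (IsPreconnected (range φ.1))} =
        {_φ | P True} := by
      ext φ
      have := h φ.1 φ.2
      simp [this]
    rw [this]
    exact isOpen_const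
  · have : {φ : {φ : C(G.Space, ℂ) // G.IsDegEmb φ} | P (IsPreconnected (range φ.1))} =
        {_φ | P False} := by
      ext φ
      have := h φ.1 φ.2
      simp [this]
    rw [this]
    exact isOpen_const

/-- Connectedness of the image is locally constant on the space of nets. -/
theorem isClopen_connected : IsClopen {x : Nets | IsPreconnected x.image} := by
  have key : ∀ P : Prop → Prop, IsOpen {x : Nets | P (IsPreconnected x.image)} := by
    intro P
    change IsOpen ((Quotient.mk netSetoid) ⁻¹' {x : Nets | P (IsPreconnected x.image)})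
    exact isOpen_sigma_iff.2 fun G => G.isOpen_of P
  exact ⟨⟨key (fun p => ¬ p)⟩, key (fun p => p)⟩

/-! ### The configuration space is path connected -/

theorem exists_path_oconf {n : ℕ} (f g : OConf n) : Joined f g := by
  let bad : Set ℂ := ⋃ i : Fin n, ⋃ j : Fin n,
    {z | i ≠ j ∧ (1 - z) * f.1 i + z * g.1 i = (1 - z) * f.1 j + z * g.1 j}
  have hfin : bad.Finite := by
    refine finite_iUnion fun i => finite_iUnion fun j => ?_
    apply Set.Subsingleton.finite
    rintro z ⟨hij, hz⟩ z' ⟨-, hz'⟩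
    have hne : f.1 i - f.1 j ≠ 0 := sub_ne_zero.2 fun h => hij (f.2 h)
    have e1 : (f.1 i - f.1 j) + z * ((g.1 i - g.1 j) - (f.1 i - f.1 j)) = 0 := by
      linear_combination hz
    have e2 : (f.1 i - f.1 j) + z' * ((g.1 i - g.1 j) - (f.1 i - f.1 j)) = 0 := by
      linear_combination hz'
    have e3 : (z - z') * ((g.1 i - g.1 j) - (f.1 i - f.1 j)) = 0 := by
      linear_combination e1 - e2
    rcases mul_eq_zero.1 e3 with h | h
    · exact sub_eq_zero.1 h
    · rw [h, mul_zero, add_zero] at e1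
      exact absurd e1 hne
  have h0 : (0 : ℂ) ∈ badᶜ := by
    intro h
    simp only [bad, mem_iUnion] at h
    obtain ⟨i, j, hij, h⟩ := h
    exact hij (f.2 (by simpa using h))
  have h1 : (1 : ℂ) ∈ badᶜ := by
    intro h
    simp only [bad, mem_iUnion] at h
    obtain ⟨i, j, hij, h⟩ := h
    exact hij (g.2 (by simpa using h))
  have hconn := hfin.countable.isPathConnected_compl_of_one_lt_rank (E := ℂ) (by
    rw [Complex.rank_real_complex]; norm_num)
  obtain ⟨γ, hγ⟩ := hconn.joinedIn 0 h0 1 h1
  refine ⟨⟨⟨fun t => ⟨fun i => (1 - γ t) * f.1 i + γ t * g.1 i, ?_⟩, ?_⟩, ?_, ?_⟩⟩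
  · intro i j hij
    by_contra hne
    exact hγ t (mem_iUnion.2 ⟨i, mem_iUnion.2 ⟨j, hne, hij⟩⟩)
  · refine Continuous.subtype_mk ?_ _
    fun_prop
  · apply Subtype.ext
    funext i
    simp
  · apply Subtype.ext
    funext i
    simp

theorem joined_uconf {n : ℕ} (f g : UConf n) : Joined f g := by
  induction f using Quotient.inductionOn with
  | h f =>
    induction g using Quotient.inductionOn with
    | h g =>
      obtain ⟨γ⟩ := exists_path_oconf f g
      exact ⟨γ.map (f := Quotient.mk (confSetoid n)) continuous_quot_mk⟩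

/-- If `X` is homotopy equivalent to the configuration space, then `X` is path connected. -/
theorem joined_of_equiv {n : ℕ} {X : Type} [TopologicalSpace X]
    (h : ContinuousMap.HomotopyEquiv X (UConf n)) (x y : X) : Joined x y := by
  obtain ⟨H⟩ := h.left_inv
  have key : ∀ x, Joined (h.invFun (h.toFun x)) x := by
    intro x
    refine ⟨⟨⟨fun t => H (t, x), by fun_prop⟩, ?_, ?_⟩⟩
    · simp
    · simp
  refine (key x).symm.trans (Joined.trans ?_ (key y))
  obtain ⟨γ⟩ := joined_uconf (h.toFun x) (h.toFun y)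
  exact ⟨γ.map h.invFun.continuous⟩

/-! ### Examples: `n + 1` arcs with common endpoints, and `m ≤ 1` isolated points -/

/-- `n + 1` edges from the vertex `0` to the vertex `1`, and `m` isolated vertices -/
def theta (n m : ℕ) : Graph where
  nV := m + 2
  nE := n + 1
  src := fun _ => 0
  tgt := fun _ => 1

/-- the isolated point -/
def iso : ℂ := ⟨1 / 2, 1 / 8⟩

/-- the arc of height `c` -/
def arc (c x : ℝ) : ℂ := ⟨x, c * (x * (1 - x))⟩

theorem continuous_arc : Continuous (fun p : ℝ × ℝ => arc p.1 p.2) := by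
  have : (fun p : ℝ × ℝ => arc p.1 p.2) =
      fun p : ℝ × ℝ => ((p.2 : ℝ) : ℂ) + ((p.1 * (p.2 * (1 - p.2)) : ℝ) : ℂ) * Complex.I := by
    funext p
    apply Complex.ext <;> simp [arc]
  rw [this]
  fun_prop

/-- the positions of the vertices -/
def pos (m : ℕ) (v : Fin (m + 2)) : ℂ := if v = 0 then 0 else if v = 1 then 1 else iso

/-- the map on the CW complex -/
def emb0 (n m : ℕ) : (theta n m).Space → ℂ :=
  Quot.lift (Sum.elim (pos m) (fun p : Fin (n + 1) × unitInterval => arc (p.1 : ℕ) (p.2 : ℝ))) (by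
    rintro _ _ (e | e)
    · simp [pos, theta, arc, Complex.ext_iff]
    · simp [pos, theta, arc, Complex.ext_iff])

theorem continuous_emb0 (n m : ℕ) : Continuous (emb0 n m) := by
  refine continuous_quot_lift _ (continuous_sum_dom.2 ⟨continuous_of_discreteTopology, ?_⟩)
  change Continuous (fun p : Fin (n + 1) × unitInterval => arc (p.1 : ℕ) (p.2 : ℝ))
  exact continuous_arc.comp (Continuous.prodMk
    ((continuous_of_discreteTopology (f := fun k : Fin (n + 1) => ((k : ℕ) : ℝ))).comp
      continuous_fst) (continuous_subtype_val.comp continuous_snd))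

/-- the map on the CW complex -/
def emb (n m : ℕ) : C((theta n m).Space, ℂ) := ⟨emb0 n m, continuous_emb0 n m⟩

theorem emb_vx (n m : ℕ) (v : Fin (theta n m).nV) : emb n m ((theta n m).vx v) = pos m v := rfl

theorem emb_pt (n m : ℕ) (e : Fin (theta n m).nE) (t : unitInterval) :
    emb n m ((theta n m).pt e t) = arc (e : ℕ) (t : ℝ) := rfl

theorem pos_injective {m : ℕ} (hm : m ≤ 1) : Function.Injective (pos m) := by
  have hi0 : iso ≠ 0 := by simp [iso, Complex.ext_iff]
  have hi1 : iso ≠ 1 := by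
    intro h
    have := congrArg Complex.im h
    norm_num [iso] at this
  interval_cases m
  · intro v w h
    fin_cases v <;> fin_cases w <;> simp_all [pos]
  · intro v w h
    have h20 : ¬ (2 : Fin 3) = 0 := by decide
    have h21 : ¬ (2 : Fin 3) = 1 := by decide
    fin_cases v <;> fin_cases w <;> simp_all [pos]

theorem not_const (n m : ℕ) (e : Fin (theta n m).nE) : ¬ (theta n m).IsConst (emb n m) e := by
  intro h
  have := h 0 1
  rw [emb_pt, emb_pt] at this
  have := congrArg Complex.re this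
  simp [arc] at this

theorem isDegEmb {n m : ℕ} (hm : m ≤ 1) : (theta n m).IsDegEmb (emb n m) where
  edge := by
    intro e
    right
    have : CompactSpace ((theta n m).closedEdge e) :=
      isCompact_iff_compactSpace.1 (isCompact_range (Graph.continuous_pt e))
    refine ((emb n m).continuous.comp continuous_subtype_val).isClosedEmbedding ?_ |>.isEmbedding
    rintro ⟨_, s, rfl⟩ ⟨_, t, rfl⟩ hst
    have h1 : arc (e : ℕ) (s : ℝ) = arc (e : ℕ) (t : ℝ) := hst
    have h2 : (s : ℝ) = t := congrArg Complex.re h1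
    have h3 : s = t := Subtype.ext h2
    rw [h3]
  vertex := by
    intro v w
    rw [emb_vx, emb_vx]
    constructor
    · intro h
      have : v = w := pos_injective hm h
      rw [this]
      exact Relation.EqvGen.refl _
    · intro h
      induction h with
      | rel a b hab =>
        obtain ⟨e, he, -⟩ := hab
        exact absurd he (not_const n m e)
      | refl a => rfl
      | symm a b _ ih => exact Eq.symm ih
      | trans a b c _ _ ih1 ih2 => exact Eq.trans ih1 ih2
  edge_vertex := by
    intro e _ t ht0 ht1 v h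
    rw [emb_pt, emb_vx] at h
    have ht0' : (0 : ℝ) < t := ht0
    have ht1' : (t : ℝ) < 1 := ht1
    unfold pos at h
    split_ifs at h
    · have := congrArg Complex.re h
      simp only [arc, Complex.zero_re] at this
      exact ht0'.ne' this
    · have := congrArg Complex.re h
      simp only [arc, Complex.one_re] at this
      exact ht1'.ne this
    · have h1 := congrArg Complex.re h
      have h2 := congrArg Complex.im h
      simp only [arc, iso] at h1 h2
      rw [h1] at h2
      have h3 : (2 * (e : ℕ) : ℝ) = 1 := by linarith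
      have h4 : 2 * (e : ℕ) = 1 := by exact_mod_cast h3
      omega
  edge_edge := by
    intro e f hef _ _ s t hs0 hs1 ht0 ht1 h
    rw [emb_pt, emb_pt] at h
    have h1 : (s : ℝ) = t := congrArg Complex.re h
    have h2 := congrArg Complex.im h
    simp only [arc] at h2
    rw [h1] at h2
    have ht0' : (0 : ℝ) < t := ht0
    have ht1' : (0 : ℝ) < 1 - t := sub_pos.2 ht1
    have h3 : ((e : ℕ) : ℝ) = (f : ℕ) := mul_right_cancel₀ (mul_pos ht0' ht1').ne' h2
    exact hef (Fin.ext (by exact_mod_cast h3))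
  no_cycle := by
    rintro ⟨k, v, e, -, -, he, -⟩
    exact not_const n m (e 0) (he 0)

/-- the net of the example -/
def net (n m : ℕ) (hm : m ≤ 1) : Nets := Quotient.mk netSetoid ⟨theta n m, ⟨emb n m, isDegEmb hm⟩⟩

/-- the image of the net -/
def img (n m : ℕ) : Set ℂ :=
  {z | ∃ k : ℕ, k ≤ n ∧ 0 ≤ z.re ∧ z.re ≤ 1 ∧ z.im = k * (z.re * (1 - z.re))} ∪
    {z | m = 1 ∧ z = iso}

theorem image_net (n m : ℕ) (hm : m ≤ 1) : (net n m hm).image = img n m := by
  change range (emb n m) = img n m
  ext z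
  constructor
  · rintro ⟨x, rfl⟩
    refine Graph.space_ind (p := fun x => emb n m x ∈ img n m) ?_ ?_ x
    · intro v
      rw [emb_vx]
      unfold pos
      split_ifs with h0 h1
      · exact Or.inl ⟨0, Nat.zero_le _, by simp, by simp, by simp⟩
      · exact Or.inl ⟨0, Nat.zero_le _, by simp, by simp, by simp⟩
      · refine Or.inr ⟨?_, rfl⟩
        by_contra hm1
        have hm0 : m = 0 := by omega
        subst hm0
        have key : ∀ v : Fin 2, ¬ v = 0 → ¬ v = 1 → False := by decide
        exact key v h0 h1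
    · intro e t
      rw [emb_pt]
      exact Or.inl ⟨e, Nat.lt_succ_iff.1 e.2, t.2.1, t.2.2, rfl⟩
  · rintro (⟨k, hk, h0, h1, him⟩ | ⟨rfl, rfl⟩)
    · refine ⟨(theta n m).pt (⟨k, Nat.lt_succ_iff.2 hk⟩ : Fin (n + 1)) ⟨z.re, h0, h1⟩, ?_⟩
      exact Complex.ext rfl him.symm
    · exact ⟨(theta n 1).vx (2 : Fin 3), rfl⟩

theorem isPreconnected_img0 (n : ℕ) : IsPreconnected (img n 0) := by
  have h : img n 0 = ⋃ k : Fin (n + 1), (fun x : ℝ => arc ((k : ℕ) : ℝ) x) '' Icc 0 1 := by
    ext z
    simp only [img, mem_union, mem_ofPred_eq, mem_iUnion, mem_image, mem_Icc]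
    constructor
    · rintro (⟨k, hk, h0, h1, him⟩ | ⟨h, -⟩)
      · exact ⟨⟨k, Nat.lt_succ_iff.2 hk⟩, z.re, ⟨h0, h1⟩, Complex.ext rfl him.symm⟩
      · exact absurd h (by norm_num)
    · rintro ⟨k, x, ⟨h0, h1⟩, rfl⟩
      exact Or.inl ⟨k, Nat.lt_succ_iff.1 k.2, h0, h1, rfl⟩
  rw [h]
  refine isPreconnected_iUnion ⟨0, ?_⟩ fun k => ?_
  · rw [mem_iInter]
    intro k
    exact ⟨0, ⟨le_rfl, zero_le_one⟩, by simp [arc, Complex.ext_iff]⟩
  · exact isPreconnected_Icc.image _ (continuous_arc.comp (by fun_prop :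
      Continuous fun x : ℝ => (((k : ℕ) : ℝ), x))).continuousOn

theorem iso_notMem (n : ℕ) : iso ∉ img n 0 := by
  rintro (⟨k, -, -, -, h⟩ | ⟨h, -⟩)
  · simp only [iso] at h
    have h3 : (2 * k : ℝ) = 1 := by linarith
    have h4 : 2 * k = 1 := by exact_mod_cast h3
    omega
  · exact absurd h (by norm_num)

theorem img1_eq (n : ℕ) : img n 1 = img n 0 ∪ {iso} := by
  ext z
  simp [img]

theorem not_isPreconnected_img1 (n : ℕ) : ¬ IsPreconnected (img n 1) := by
  intro h
  have hcl : IsClosed (img n 0) := by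
    rw [← image_net n 0 (by norm_num)]
    exact (isCompact_range (emb n 0).continuous).isClosed
  obtain ⟨z, -, hz1, hz2⟩ := isPreconnected_closed_iff.1 h _ _ hcl (isClosed_singleton (x := iso))
    (img1_eq n).le
    ⟨0, Or.inl ⟨0, Nat.zero_le _, by simp, by simp, by simp⟩,
      Or.inl ⟨0, Nat.zero_le _, by simp, by simp, by simp⟩⟩
    ⟨iso, Or.inr ⟨rfl, rfl⟩, rfl⟩
  rw [mem_singleton_iff] at hz2
  exact iso_notMem n (hz2 ▸ hz1)

/-! ### The faces of the examples -/

theorem cc_eq {F A B : Set ℂ} (hA : IsOpen A) (hB : IsOpen B) (hF : F = A ∪ B)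
    (hd : Disjoint A B) (hc : IsPreconnected A) {z : ℂ} (hz : z ∈ A) :
    connectedComponentIn F z = A := by
  have hAF : A ⊆ F := hF ▸ subset_union_left
  refine Subset.antisymm ?_ (hc.subset_connectedComponentIn hz hAF)
  exact IsPreconnected.subset_left_of_subset_union hA hB hd
    (hF ▸ connectedComponentIn_subset F z) ⟨z, mem_connectedComponentIn (hAF hz), hz⟩
    isPreconnected_connectedComponentIn

/-- the bounded regions -/
def U (m i : ℕ) : Set ℂ :=
  {z | 0 < z.re ∧ z.re < 1 ∧ i * (z.re * (1 - z.re)) < z.im ∧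
    z.im < (i + 1) * (z.re * (1 - z.re))} ∩ {z | m = 1 → z ≠ iso}

/-- the unbounded region -/
def Out (n : ℕ) : Set ℂ :=
  (({z | z.re < 0} ∪ {z | z.im < 0}) ∪ {z | 1 < z.re}) ∪ {z | n * (z.re * (1 - z.re)) < z.im}

theorem isOpen_U (m i : ℕ) : IsOpen (U m i) := by
  have h1 : IsOpen {z : ℂ | 0 < z.re ∧ z.re < 1 ∧ i * (z.re * (1 - z.re)) < z.im ∧
      z.im < (i + 1) * (z.re * (1 - z.re))} := by
    refine IsOpen.inter (isOpen_lt continuous_const Complex.continuous_re) (IsOpen.inter
      (isOpen_lt Complex.continuous_re continuous_const) (IsOpen.inter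
        (isOpen_lt (by fun_prop) Complex.continuous_im)
        (isOpen_lt Complex.continuous_im (by fun_prop))))
  refine h1.inter ?_
  by_cases hm : m = 1
  · have : {z : ℂ | m = 1 → z ≠ iso} = {iso}ᶜ := by ext z; simp [hm]
    rw [this]
    exact isOpen_compl_singleton
  · have : {z : ℂ | m = 1 → z ≠ iso} = univ := by ext z; simp [hm]
    rw [this]
    exact isOpen_univ

theorem isOpen_Out (n : ℕ) : IsOpen (Out n) := by
  refine IsOpen.union (IsOpen.union (IsOpen.union ?_ ?_) ?_) ?_
  · exact isOpen_lt Complex.continuous_re continuous_const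
  · exact isOpen_lt Complex.continuous_im continuous_const
  · exact isOpen_lt continuous_const Complex.continuous_re
  · exact isOpen_lt (by fun_prop) Complex.continuous_im

theorem isPreconnected_Out (n : ℕ) : IsPreconnected (Out n) := by
  have c1 : IsPreconnected {z : ℂ | z.re < 0} := (convex_halfSpace_re_lt 0).isPreconnected
  have c2 : IsPreconnected {z : ℂ | z.im < 0} := (convex_halfSpace_im_lt 0).isPreconnected
  have c3 : IsPreconnected {z : ℂ | 1 < z.re} := (convex_halfSpace_re_gt 1).isPreconnected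
  have c4 : IsPreconnected {z : ℂ | n * (z.re * (1 - z.re)) < z.im} := by
    have : {z : ℂ | n * (z.re * (1 - z.re)) < z.im} =
        (fun p : ℝ × ℝ => (⟨p.1, n * (p.1 * (1 - p.1)) + p.2⟩ : ℂ)) '' (univ ×ˢ Ioi 0) := by
      ext z
      simp only [mem_ofPred_eq, mem_image, mem_prod, mem_univ, true_and, mem_Ioi, Prod.exists]
      constructor
      · intro h
        exact ⟨z.re, z.im - n * (z.re * (1 - z.re)), sub_pos.2 h, Complex.ext rfl (by simp)⟩
      · rintro ⟨a, b, hb, rfl⟩
        simpa using hb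
    rw [this]
    refine (isPreconnected_univ.prod isPreconnected_Ioi).image _ (Continuous.continuousOn ?_)
    have h2 : (fun p : ℝ × ℝ => (⟨p.1, n * (p.1 * (1 - p.1)) + p.2⟩ : ℂ)) =
        fun p : ℝ × ℝ => (p.1 : ℂ) + ((n * (p.1 * (1 - p.1)) + p.2 : ℝ) : ℂ) * Complex.I := by
      funext p
      apply Complex.ext <;> simp
    rw [h2]
    fun_prop
  refine IsPreconnected.union' ⟨⟨-1, 1⟩, ?_, ?_⟩ (IsPreconnected.union' ⟨⟨2, -1⟩, ?_, ?_⟩
    (IsPreconnected.union' ⟨⟨-1, -1⟩, ?_, ?_⟩ c1 c2) c3) c4
  · exact Or.inl (Or.inl (by simp))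
  · have : (0 : ℝ) ≤ n := Nat.cast_nonneg n
    simp only [mem_ofPred_eq]
    nlinarith
  · exact Or.inr (by simp)
  · simp
  · simp
  · simp

theorem not_isBounded_Out (n : ℕ) : ¬ Bornology.IsBounded (Out n) := by
  intro h
  obtain ⟨R, hR⟩ := h.exists_norm_le
  have h1 : (⟨-(|R| + 1), 0⟩ : ℂ) ∈ Out n := by
    refine Or.inl (Or.inl (Or.inl ?_))
    simp only [mem_ofPred_eq]
    have := abs_nonneg R
    linarith
  have h2 := hR _ h1
  have h3 := (Complex.abs_re_le_norm (⟨-(|R| + 1), 0⟩ : ℂ)).trans h2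
  simp only [abs_neg] at h3
  have h4 := le_abs_self R
  have h5 := le_abs_self (|R| + 1)
  linarith

/-- the open unit square without its centre is connected -/
theorem isPreconnected_punctured :
    IsPreconnected ((Ioo (0 : ℝ) 1 ×ˢ Ioo (0 : ℝ) 1) \ {((1 / 2 : ℝ), (1 / 2 : ℝ))}) := by
  have h : (Ioo (0 : ℝ) 1 ×ˢ Ioo (0 : ℝ) 1) \ {((1 / 2 : ℝ), (1 / 2 : ℝ))} =
      ((Ioo (0 : ℝ) (1 / 2) ×ˢ Ioo (0 : ℝ) 1 ∪ Ioo (0 : ℝ) 1 ×ˢ Ioo (0 : ℝ) (1 / 2)) ∪
        Ioo (1 / 2 : ℝ) 1 ×ˢ Ioo (0 : ℝ) 1) ∪ Ioo (0 : ℝ) 1 ×ˢ Ioo (1 / 2 : ℝ) 1 := by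
    ext ⟨x, y⟩
    simp only [mem_sdiff, mem_prod, mem_Ioo, mem_singleton_iff, Prod.mk.injEq, mem_union]
    constructor
    · rintro ⟨⟨⟨h1, h2⟩, h3, h4⟩, h5⟩
      rcases lt_trichotomy x (1 / 2) with h6 | h6 | h6
      · exact Or.inl (Or.inl (Or.inl ⟨⟨h1, h6⟩, h3, h4⟩))
      · rcases lt_trichotomy y (1 / 2) with h7 | h7 | h7
        · exact Or.inl (Or.inl (Or.inr ⟨⟨h1, h2⟩, h3, h7⟩))
        · exact absurd ⟨h6, h7⟩ h5
        · exact Or.inr ⟨⟨h1, h2⟩, h7, h4⟩
      · exact Or.inl (Or.inr ⟨⟨h6, h2⟩, h3, h4⟩)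
    · rintro (((⟨⟨h1, h2⟩, h3, h4⟩ | ⟨⟨h1, h2⟩, h3, h4⟩) | ⟨⟨h1, h2⟩, h3, h4⟩) |
        ⟨⟨h1, h2⟩, h3, h4⟩) <;>
      refine ⟨⟨⟨by linarith, by linarith⟩, by linarith, by linarith⟩, ?_⟩ <;>
      rintro ⟨h5, h6⟩ <;> linarith
  rw [h]
  refine IsPreconnected.union' ⟨(3 / 4, 3 / 4), ?_, ?_⟩ (IsPreconnected.union'
    ⟨(3 / 4, 1 / 4), ?_, ?_⟩ (IsPreconnected.union' ⟨(1 / 4, 1 / 4), ?_, ?_⟩
      (isPreconnected_Ioo.prod isPreconnected_Ioo) (isPreconnected_Ioo.prod isPreconnected_Ioo))
      (isPreconnected_Ioo.prod isPreconnected_Ioo)) (isPreconnected_Ioo.prod isPreconnected_Ioo)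
  all_goals norm_num [mem_prod, mem_union, mem_Ioo]

theorem isPreconnected_U (m i : ℕ) : IsPreconnected (U m i) := by
  by_cases hmi : m = 1 ∧ i = 0
  · obtain ⟨rfl, rfl⟩ := hmi
    have : U 1 0 = (fun p : ℝ × ℝ => arc p.2 p.1) ''
        ((Ioo (0 : ℝ) 1 ×ˢ Ioo (0 : ℝ) 1) \ {((1 / 2 : ℝ), (1 / 2 : ℝ))}) := by
      ext z
      simp only [U, mem_inter_iff, mem_ofPred_eq, mem_image, mem_sdiff, mem_prod, mem_Ioo,
        mem_singleton_iff, Prod.exists, Prod.mk.injEq]
      constructor
      · rintro ⟨⟨h1, h2, h3, h4⟩, h5⟩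
        have hw : 0 < z.re * (1 - z.re) := mul_pos h1 (by linarith)
        have hz : z.im / (z.re * (1 - z.re)) * (z.re * (1 - z.re)) = z.im :=
          div_mul_cancel₀ _ hw.ne'
        refine ⟨z.re, z.im / (z.re * (1 - z.re)), ⟨⟨⟨h1, h2⟩, ?_, ?_⟩, ?_⟩, ?_⟩
        · rw [lt_div_iff₀ hw]; simpa using h3
        · rw [div_lt_iff₀ hw]; simpa using h4
        · rintro ⟨h6, h7⟩
          apply h5 trivial
          apply Complex.ext
          · exact h6
          · rw [← hz, h7, h6]; norm_num [iso]
        · exact Complex.ext rfl hz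
      · rintro ⟨a, b, ⟨⟨⟨h1, h2⟩, h3, h4⟩, h5⟩, rfl⟩
        have hw : 0 < a * (1 - a) := mul_pos h1 (by linarith)
        refine ⟨⟨h1, h2, ?_, ?_⟩, ?_⟩
        · simpa [arc] using mul_pos h3 hw
        · simp only [arc]
          have := mul_lt_mul_of_pos_right h4 hw
          simpa using this
        · intro _ h6
          apply h5
          have h7 := congrArg Complex.re h6
          have h8 := congrArg Complex.im h6
          simp only [arc, iso] at h7 h8
          refine ⟨h7, ?_⟩
          rw [h7] at h8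
          linarith
    rw [this]
    refine isPreconnected_punctured.image _ (Continuous.continuousOn ?_)
    exact continuous_arc.comp (by fun_prop : Continuous fun p : ℝ × ℝ => (p.2, p.1))
  · have : U m i = (fun p : ℝ × ℝ => arc p.2 p.1) ''
        (Ioo (0 : ℝ) 1 ×ˢ Ioo (i : ℝ) (i + 1)) := by
      ext z
      simp only [U, mem_inter_iff, mem_ofPred_eq, mem_image, mem_prod, mem_Ioo, Prod.exists]
      constructor
      · rintro ⟨⟨h1, h2, h3, h4⟩, h5⟩
        have hw : 0 < z.re * (1 - z.re) := mul_pos h1 (by linarith)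
        have hz : z.im / (z.re * (1 - z.re)) * (z.re * (1 - z.re)) = z.im :=
          div_mul_cancel₀ _ hw.ne'
        refine ⟨z.re, z.im / (z.re * (1 - z.re)), ⟨⟨h1, h2⟩, ?_, ?_⟩, ?_⟩
        · rw [lt_div_iff₀ hw]; exact h3
        · rw [div_lt_iff₀ hw]; exact h4
        · exact Complex.ext rfl hz
      · rintro ⟨a, b, ⟨⟨h1, h2⟩, h3, h4⟩, rfl⟩
        have hw : 0 < a * (1 - a) := mul_pos h1 (by linarith)
        refine ⟨⟨h1, h2, mul_lt_mul_of_pos_right h3 hw, mul_lt_mul_of_pos_right h4 hw⟩, ?_⟩
        intro hm h6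
        have h7 := congrArg Complex.re h6
        have h8 := congrArg Complex.im h6
        simp only [arc, iso] at h7 h8
        rw [h7] at h8
        have h9 : b = 1 / 2 := by linarith
        have h10 : 1 ≤ i := by
          rcases Nat.eq_zero_or_pos i with h | h
          · exact absurd ⟨hm, h⟩ hmi
          · exact h
        have h11 : (1 : ℝ) ≤ i := by exact_mod_cast h10
        linarith
    rw [this]
    refine (isPreconnected_Ioo.prod isPreconnected_Ioo).image _ (Continuous.continuousOn ?_)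
    exact continuous_arc.comp (by fun_prop : Continuous fun p : ℝ × ℝ => (p.2, p.1))

theorem U_disjoint {m i j : ℕ} (hij : i ≠ j) : Disjoint (U m i) (U m j) := by
  rw [Set.disjoint_left]
  rintro z ⟨⟨h1, h2, h3, h4⟩, -⟩ ⟨⟨-, -, h5, h6⟩, -⟩
  have hw : 0 < z.re * (1 - z.re) := mul_pos h1 (by linarith)
  have h7 : (i : ℝ) < j + 1 := lt_of_mul_lt_mul_right (h3.trans h6) hw.le
  have h8 : (j : ℝ) < i + 1 := lt_of_mul_lt_mul_right (h5.trans h4) hw.le
  have h7' : i < j + 1 := by exact_mod_cast h7
  have h8' : j < i + 1 := by exact_mod_cast h8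
  omega

theorem U_disjoint_Out {n m i : ℕ} (hi : i < n) : Disjoint (U m i) (Out n) := by
  rw [Set.disjoint_left]
  rintro z ⟨⟨h1, h2, h3, h4⟩, -⟩ h5
  have hw : 0 < z.re * (1 - z.re) := mul_pos h1 (by linarith)
  have hi0 : (0 : ℝ) ≤ i := Nat.cast_nonneg i
  have h0 : 0 ≤ i * (z.re * (1 - z.re)) := mul_nonneg hi0 hw.le
  have hin : (i : ℝ) + 1 ≤ n := by exact_mod_cast hi
  rcases h5 with ((h | h) | h) | h
  · exact absurd h1 (not_lt.2 (le_of_lt h))
  · have : z.im < 0 := h
    linarith
  · have : 1 < z.re := h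
    linarith
  · have h6 : n * (z.re * (1 - z.re)) < z.im := h
    have := mul_le_mul_of_nonneg_right hin hw.le
    linarith

theorem compl_img {n m : ℕ} (hn : 1 ≤ n) (_hm : m ≤ 1) :
    (img n m)ᶜ = Out n ∪ ⋃ i : Fin n, U m i := by
  ext z
  simp only [mem_compl_iff, mem_union, mem_iUnion]
  constructor
  · intro hz
    by_cases h1 : z.re < 0
    · exact Or.inl (Or.inl (Or.inl (Or.inl h1)))
    by_cases h2 : 1 < z.re
    · exact Or.inl (Or.inl (Or.inr h2))
    by_cases h3 : z.im < 0
    · exact Or.inl (Or.inl (Or.inl (Or.inr h3)))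
    by_cases h4 : n * (z.re * (1 - z.re)) < z.im
    · exact Or.inl (Or.inr h4)
    push Not at h1 h2 h3 h4
    right
    have hnot : ∀ k : ℕ, k ≤ n → z.im ≠ k * (z.re * (1 - z.re)) := fun k hk h =>
      hz (Or.inl ⟨k, hk, h1, h2, h⟩)
    have hre0 : 0 < z.re := by
      refine lt_of_le_of_ne h1 fun h => hnot 0 (Nat.zero_le _) ?_
      rw [← h] at h4 ⊢
      norm_num at h4 ⊢
      exact le_antisymm h4 h3
    have hre1 : z.re < 1 := by
      refine lt_of_le_of_ne h2 fun h => hnot 0 (Nat.zero_le _) ?_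
      rw [h] at h4 ⊢
      norm_num at h4 ⊢
      exact le_antisymm h4 h3
    have hw : 0 < z.re * (1 - z.re) := mul_pos hre0 (by linarith)
    set c := z.im / (z.re * (1 - z.re)) with hc
    have hcz : c * (z.re * (1 - z.re)) = z.im := div_mul_cancel₀ _ hw.ne'
    have hc0 : 0 ≤ c := div_nonneg h3 hw.le
    have hcn : c ≤ n := by rw [hc, div_le_iff₀ hw]; exact h4
    have hf1 : (⌊c⌋₊ : ℝ) ≤ c := Nat.floor_le hc0
    have hf2 : c < ⌊c⌋₊ + 1 := Nat.lt_floor_add_one c
    have hfn : ⌊c⌋₊ ≤ n := by
      have : (⌊c⌋₊ : ℝ) ≤ n := hf1.trans hcn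
      exact_mod_cast this
    have hne : (⌊c⌋₊ : ℝ) ≠ c := by
      intro h
      apply hnot _ hfn
      rw [h, hcz]
    have hlt : (⌊c⌋₊ : ℝ) < c := lt_of_le_of_ne hf1 hne
    have hfn' : ⌊c⌋₊ < n := by
      have : (⌊c⌋₊ : ℝ) < n := hlt.trans_le hcn
      exact_mod_cast this
    refine ⟨⟨⌊c⌋₊, hfn'⟩, ⟨hre0, hre1, ?_, ?_⟩, ?_⟩
    · have := mul_lt_mul_of_pos_right hlt hw
      rwa [hcz] at this
    · have := mul_lt_mul_of_pos_right hf2 hw
      rwa [hcz] at this
    · intro hm1 h
      exact hz (Or.inr ⟨hm1, h⟩)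
  · rintro h (⟨k, hk, h0, h1, him⟩ | ⟨hm1, hz⟩)
    · have hw : 0 ≤ z.re * (1 - z.re) := mul_nonneg h0 (by linarith)
      have hk0 : (0 : ℝ) ≤ k := Nat.cast_nonneg k
      have hkn : (k : ℝ) ≤ n := by exact_mod_cast hk
      rcases h with (((h | h) | h) | h) | ⟨i, ⟨h2, h3, h4, h5⟩, -⟩
      · exact absurd h0 (not_le.2 h)
      · have h' : z.im < 0 := h
        have := mul_nonneg hk0 hw
        linarith
      · exact absurd h1 (not_le.2 h)
      · have h' : n * (z.re * (1 - z.re)) < z.im := h
        have := mul_le_mul_of_nonneg_right hkn hw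
        linarith
      · have hw' : 0 < z.re * (1 - z.re) := mul_pos h2 (by linarith)
        rw [him] at h4 h5
        have h6 : ((i : ℕ) : ℝ) < k := lt_of_mul_lt_mul_right h4 hw
        have h7 : (k : ℝ) < (i : ℕ) + 1 := lt_of_mul_lt_mul_right h5 hw
        have h6' : (i : ℕ) < k := by exact_mod_cast h6
        have h7' : k < (i : ℕ) + 1 := by exact_mod_cast h7
        omega
    · subst hz
      have hn' : (1 : ℝ) ≤ n := by exact_mod_cast hn
      rcases h with (((h | h) | h) | h) | ⟨i, -, h⟩
      · have h' : iso.re < 0 := h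
        norm_num [iso] at h'
      · have h' : iso.im < 0 := h
        norm_num [iso] at h'
      · have h' : 1 < iso.re := h
        norm_num [iso] at h'
      · have h' : n * (iso.re * (1 - iso.re)) < iso.im := h
        simp only [iso] at h'
        linarith
      · exact h hm1 rfl

theorem nonempty_U (m i : ℕ) : (U m i).Nonempty := by
  refine ⟨⟨1 / 4, (i + 1 / 2) * (3 / 16)⟩, ⟨by norm_num, by norm_num, ?_, ?_⟩, ?_⟩
  · simp only
    linarith
  · simp only
    linarith
  · intro _ h
    have := congrArg Complex.re h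
    norm_num [iso] at this

theorem isBounded_U (m i : ℕ) : Bornology.IsBounded (U m i) := by
  rw [isBounded_iff_forall_norm_le]
  refine ⟨1 + (i + 1), ?_⟩
  rintro z ⟨⟨h1, h2, h3, h4⟩, -⟩
  have hi0 : (0 : ℝ) ≤ i := Nat.cast_nonneg i
  have hw : 0 < z.re * (1 - z.re) := mul_pos h1 (by linarith)
  have hw1 : z.re * (1 - z.re) ≤ 1 := by nlinarith
  have h5 : 0 ≤ z.im := le_trans (mul_nonneg hi0 hw.le) h3.le
  refine (Complex.norm_le_abs_re_add_abs_im z).trans (add_le_add ?_ ?_)
  · rw [abs_of_pos h1]; exact h2.le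
  · rw [abs_of_nonneg h5]
    refine h4.le.trans ?_
    calc ((i : ℝ) + 1) * (z.re * (1 - z.re)) ≤ (i + 1) * 1 :=
          mul_le_mul_of_nonneg_left hw1 (by linarith)
      _ = i + 1 := mul_one _

theorem boundedFaces_img {n m : ℕ} (hn : 1 ≤ n) (hm : m ≤ 1) :
    (boundedFaces (img n m)).encard = n := by
  have hccO : ∀ z ∈ Out n, connectedComponentIn (img n m)ᶜ z = Out n := fun z hz =>
    cc_eq (isOpen_Out n) (isOpen_iUnion fun i : Fin n => isOpen_U m i) (compl_img hn hm)
      (disjoint_iUnion_right.2 fun i => (U_disjoint_Out i.2).symm) (isPreconnected_Out n) hz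
  have hccU : ∀ i : Fin n, ∀ z ∈ U m i, connectedComponentIn (img n m)ᶜ z = U m i := by
    intro i z hz
    refine cc_eq (B := Out n ∪ ⋃ j : {j : Fin n // j ≠ i}, U m j) (isOpen_U m i)
      ((isOpen_Out n).union (isOpen_iUnion fun j => isOpen_U m _)) ?_ ?_ (isPreconnected_U m i) hz
    · rw [compl_img hn hm]
      ext w
      simp only [mem_union, mem_iUnion, Subtype.exists]
      constructor
      · rintro (h | ⟨j, h⟩)
        · exact Or.inr (Or.inl h)
        · by_cases hji : j = i
          · subst hji; exact Or.inl h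
          · exact Or.inr (Or.inr ⟨j, hji, h⟩)
      · rintro (h | h | ⟨j, -, h⟩)
        · exact Or.inr ⟨i, h⟩
        · exact Or.inl h
        · exact Or.inr ⟨j, h⟩
    · refine Disjoint.union_right (U_disjoint_Out i.2) (disjoint_iUnion_right.2 fun j => ?_)
      exact U_disjoint fun h => j.2 (Fin.ext h.symm)
  have heq : boundedFaces (img n m) = range (fun i : Fin n => U m i) := by
    ext F
    constructor
    · rintro ⟨⟨z, hz, rfl⟩, hb⟩
      rw [compl_img hn hm] at hz
      rcases hz with hz | hz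
      · rw [hccO z hz] at hb
        exact absurd hb (not_isBounded_Out n)
      · obtain ⟨i, hi⟩ := mem_iUnion.1 hz
        exact ⟨i, (hccU i z hi).symm⟩
    · rintro ⟨i, rfl⟩
      obtain ⟨z, hz⟩ := nonempty_U m i
      refine ⟨⟨z, ?_, (hccU i z hz).symm⟩, isBounded_U m i⟩
      rw [compl_img hn hm]
      exact Or.inr (mem_iUnion.2 ⟨i, hz⟩)
  rw [heq]
  have hinj : Function.Injective (fun i : Fin n => U m i) := by
    intro i j hij
    by_contra hne
    have hd : Disjoint (U m i) (U m j) := U_disjoint fun h => hne (Fin.ext h)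
    have hij' : U m i = U m j := hij
    rw [← hij', disjoint_self] at hd
    exact (nonempty_U m i).ne_empty hd
  rw [← image_univ, hinj.encard_image, encard_univ]
  simp

/-- **Theorem.** For every `n ≥ 1` the space `𝒩_n(ℝ²)` is not homotopy equivalent to the unordered
configuration space of `n` points of the plane; it is not even connected. -/
theorem result (n : ℕ) (hn : 1 ≤ n) :
    ¬ PreconnectedSpace (NetsWith n) ∧
      ¬ Nonempty (ContinuousMap.HomotopyEquiv (NetsWith n) (UConf n)) := by
  have hface : ∀ m (hm : m ≤ 1), (boundedFaces (net n m hm).image).encard = n := by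
    intro m hm
    rw [image_net]
    exact boundedFaces_img hn hm
  let x : NetsWith n := ⟨net n 0 zero_le_one, hface 0 zero_le_one⟩
  let y : NetsWith n := ⟨net n 1 le_rfl, hface 1 le_rfl⟩
  have hx : IsPreconnected x.1.image := by
    change IsPreconnected (net n 0 zero_le_one).image
    rw [image_net]
    exact isPreconnected_img0 n
  have hy : ¬ IsPreconnected y.1.image := by
    change ¬ IsPreconnected (net n 1 le_rfl).image
    rw [image_net]
    exact not_isPreconnected_img1 n
  have hclopen : IsClopen {z : NetsWith n | IsPreconnected z.1.image} :=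
    isClopen_connected.preimage continuous_subtype_val
  have hnot : ¬ PreconnectedSpace (NetsWith n) := by
    intro h
    rcases isClopen_iff.1 hclopen with h1 | h1
    · have : x ∈ {z : NetsWith n | IsPreconnected z.1.image} := hx
      rw [h1] at this
      exact this
    · have : y ∈ {z : NetsWith n | IsPreconnected z.1.image} := by rw [h1]; trivial
      exact hy this
  refine ⟨hnot, ?_⟩
  rintro ⟨e⟩
  apply hnot
  have : PathConnectedSpace (NetsWith n) := ⟨⟨x⟩, joined_of_equiv e⟩
  infer_instance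

end Pool.Agent.Results.MP_c05aef_gt.ManyComponents
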